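import Mathlib

/-!
# The maximum load of local search allocation is not monotone under adding edges
-/

set_option autoImplicit false
set_option linter.unusedSectionVars false

namespace Pool.Agent.Results.MP_61ae3e_pr.NotMonotone

open Finset
open scoped ENNReal

section defs

variable {V : Type} [Fintype V] [DecidableEq V] (G : SimpleGraph V) [DecidableRel G.Adj]

/-- the neighbours of `v` of minimum load -/
def minNbrs (x : V → ℕ) (v : V) : Finset V :=
  univ.filter fun u => G.Adj v u ∧ ∀ w : V, G.Adj v w → x u ≤ x w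

theorem minNbrs_nonempty {x : V → ℕ} {v : V} (h : ∃ u, G.Adj v u ∧ x u < x v) :
    (minNbrs G x v).Nonempty := by
  obtain ⟨u, hu, -⟩ := h
  obtain ⟨w, hw, hmin⟩ := Finset.exists_min_image (univ.filter fun u => G.Adj v u) x
    ⟨u, by rw [mem_filter]; exact ⟨mem_univ _, hu⟩⟩
  rw [mem_filter] at hw
  refine ⟨w, ?_⟩
  unfold minNbrs
  rw [mem_filter]
  exact ⟨mem_univ _, hw.2, fun z hz => hmin z (by rw [mem_filter]; exact ⟨mem_univ _, hz⟩)⟩

/-- The law of the position of a ball that starts at `v` and makes at most `k` moves, with the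
loads frozen at `x`: if the current vertex has a neighbour of smaller load, the ball moves to a
uniformly random neighbour of minimum load; otherwise it stays. -/
noncomputable def search (x : V → ℕ) : ℕ → V → PMF V
  | 0, v => PMF.pure v
  | k + 1, v =>
    if h : ∃ u, G.Adj v u ∧ x u < x v then
      (PMF.uniformOfFinset (minNbrs G x v) (minNbrs_nonempty G h)).bind (search x k)
    else PMF.pure v

/-- The law of the vertex at which a ball with birthplace `u` is placed.  Each move strictly lowers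
the load of the current vertex, so there are at most `x u` moves. -/
noncomputable def place (x : V → ℕ) (u : V) : PMF V := search G x (x u) u

/-- One ball: a uniform birthplace, local search, and the load of the final vertex goes up. -/
noncomputable def step [Nonempty V] (x : V → ℕ) : PMF (V → ℕ) :=
  (PMF.uniformOfFintype V).bind fun u =>
    (place G x u).bind fun w => PMF.pure (Function.update x w (x w + 1))

/-- The law of the load vector `X^(m)` after `m` balls. -/
noncomputable def law [Nonempty V] : ℕ → PMF (V → ℕ)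
  | 0 => PMF.pure fun _ => 0
  | m + 1 => (law m).bind (step G)

/-- `Pr[X_max^(m)(G) ≥ l]` -/
noncomputable def probMaxGe [Nonempty V] (m l : ℕ) : ℝ≥0∞ :=
  (law G m).toOuterMeasure {x | l ≤ univ.sup x}

/-- The fuel `x v` in `place` is large enough: allowing more moves does not change the law. -/
theorem search_fuel (x : V → ℕ) (k : ℕ) (v : V) (h : x v ≤ k) :
    search G x k v = search G x (x v) v := by
  induction k using Nat.strong_induction_on generalizing v with
  | _ k ih =>
  by_cases hlow : ∃ u, G.Adj v u ∧ x u < x v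
  · obtain ⟨u0, hu0, hlt0⟩ := hlow
    obtain ⟨k', rfl⟩ : ∃ k', k = k' + 1 := ⟨k - 1, by omega⟩
    obtain ⟨j, hj⟩ : ∃ j, x v = j + 1 := ⟨x v - 1, by omega⟩
    rw [hj, search, search, dif_pos ⟨u0, hu0, hlt0⟩, dif_pos ⟨u0, hu0, hlt0⟩]
    refine PMF.ext fun w => ?_
    rw [PMF.bind_apply, PMF.bind_apply]
    refine tsum_congr fun u => ?_
    by_cases hu : u ∈ minNbrs G x v
    · have hux : x u ≤ x u0 := by
        unfold minNbrs at hu
        rw [mem_filter] at hu
        exact hu.2.2 u0 hu0
      rw [ih k' (Nat.lt_succ_self _) u (by omega)]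
      rcases Nat.lt_or_ge j (k' + 1) with h1 | h1
      · rw [ih j h1 u (by omega)]
      · omega
    · rw [PMF.uniformOfFinset_apply_of_notMem _ hu, zero_mul, zero_mul]
  · cases k with
    | zero =>
      have : x v = 0 := by omega
      rw [this]
    | succ k =>
      rw [search, dif_neg hlow]
      cases hx : x v with
      | zero => rw [search]
      | succ j => rw [search, dif_neg hlow]

end defs

section exp

/-- expectation of a nonnegative function -/
noncomputable def pexp {α : Type} (p : PMF α) (f : α → ℝ≥0∞) : ℝ≥0∞ := ∑' a, p a * f a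

theorem pexp_pure {α : Type} (a : α) (f : α → ℝ≥0∞) : pexp (PMF.pure a) f = f a := by
  classical
  unfold pexp
  rw [tsum_eq_single a]
  · simp
  · intro b hb
    rw [PMF.pure_apply, if_neg hb, zero_mul]

theorem pexp_bind {α β : Type} (p : PMF α) (q : α → PMF β) (f : β → ℝ≥0∞) :
    pexp (p.bind q) f = pexp p (fun a => pexp (q a) f) := by
  unfold pexp
  simp only [PMF.bind_apply]
  simp_rw [← ENNReal.tsum_mul_right, ← ENNReal.tsum_mul_left]
  rw [ENNReal.tsum_comm]
  refine tsum_congr fun a => tsum_congr fun b => ?_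
  rw [mul_assoc]

theorem pexp_uniformOfFinset {α : Type} (s : Finset α) (hs : s.Nonempty) (f : α → ℝ≥0∞) :
    pexp (PMF.uniformOfFinset s hs) f = (∑ a ∈ s, f a) / (s.card : ℝ≥0∞) := by
  classical
  unfold pexp
  rw [tsum_eq_sum (s := s)]
  · rw [ENNReal.div_eq_inv_mul, mul_sum]
    refine sum_congr rfl fun a ha => ?_
    rw [PMF.uniformOfFinset_apply_of_mem _ ha]
  · intro b hb
    rw [PMF.uniformOfFinset_apply_of_notMem _ hb, zero_mul]

theorem pexp_uniformOfFintype {α : Type} [Fintype α] [Nonempty α] (f : α → ℝ≥0∞) :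
    pexp (PMF.uniformOfFintype α) f = (∑ a, f a) / (Fintype.card α : ℝ≥0∞) := by
  unfold PMF.uniformOfFintype
  rw [pexp_uniformOfFinset]
  rfl

theorem toOuterMeasure_eq_pexp {α : Type} (p : PMF α) (s : Set α) [DecidablePred (· ∈ s)] :
    p.toOuterMeasure s = pexp p (fun a => if a ∈ s then 1 else 0) := by
  rw [PMF.toOuterMeasure_apply]
  unfold pexp
  refine tsum_congr fun a => ?_
  beta_reduce
  by_cases h : a ∈ s
  · rw [Set.indicator_of_mem h, if_pos h, mul_one]
  · rw [Set.indicator_of_notMem h, if_neg h, mul_zero]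

end exp

section rational

variable {V : Type} [Fintype V] [DecidableEq V] (G : SimpleGraph V) [DecidableRel G.Adj]

/-- rational version of the expectation over `search` -/
def searchQ (x : V → ℕ) (f : V → ℚ) : ℕ → V → ℚ
  | 0, v => f v
  | k + 1, v =>
    if (∃ u, G.Adj v u ∧ x u < x v) then
      (∑ u ∈ minNbrs G x v, searchQ x f k u) / ((minNbrs G x v).card : ℚ)
    else f v

def stepQ (f : (V → ℕ) → ℚ) (x : V → ℕ) : ℚ :=
  (∑ u : V, searchQ G x (fun w => f (Function.update x w (x w + 1))) (x u) u)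
    / (Fintype.card V : ℚ)

def lawQ : ℕ → ((V → ℕ) → ℚ) → ℚ
  | 0, f => f fun _ => 0
  | m + 1, f => lawQ m (stepQ G f)

theorem searchQ_nonneg (x : V → ℕ) (f : V → ℚ) (hf : ∀ v, 0 ≤ f v) (k : ℕ) (v : V) :
    0 ≤ searchQ G x f k v := by
  induction k generalizing v with
  | zero => exact hf v
  | succ k ih =>
    rw [searchQ]
    split_ifs
    · exact div_nonneg (sum_nonneg fun u _ => ih u) (by positivity)
    · exact hf v

theorem stepQ_nonneg (f : (V → ℕ) → ℚ) (hf : ∀ x, 0 ≤ f x) (x : V → ℕ) : 0 ≤ stepQ G f x :=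
  div_nonneg (sum_nonneg fun u _ => searchQ_nonneg G x _ (fun w => hf _) _ _) (by positivity)

theorem pexp_search (x : V → ℕ) (f : V → ℚ) (hf : ∀ v, 0 ≤ f v) (k : ℕ) (v : V) :
    pexp (search G x k v) (fun w => ENNReal.ofReal (f w)) =
      ENNReal.ofReal (searchQ G x f k v) := by
  induction k generalizing v with
  | zero => rw [search, searchQ, pexp_pure]
  | succ k ih =>
    rw [search, searchQ]
    split_ifs with h
    · rw [pexp_bind, pexp_uniformOfFinset]
      simp only [ih]
      have hc : 0 < (minNbrs G x v).card := card_pos.2 (minNbrs_nonempty G h)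
      rw [← ENNReal.ofReal_sum_of_nonneg (fun u _ => by
        exact_mod_cast searchQ_nonneg G x f hf k u)]
      rw [← ENNReal.ofReal_natCast, ← ENNReal.ofReal_div_of_pos (by exact_mod_cast hc)]
      congr 1
      push_cast
      rfl
    · rw [pexp_pure]

theorem pexp_step [Nonempty V] (x : V → ℕ) (f : (V → ℕ) → ℚ) (hf : ∀ x, 0 ≤ f x) :
    pexp (step G x) (fun y => ENNReal.ofReal (f y)) = ENNReal.ofReal (stepQ G f x) := by
  unfold step place stepQ
  rw [pexp_bind, pexp_uniformOfFintype]
  have h : ∀ u : V, pexp ((search G x (x u) u).bind fun w =>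
      PMF.pure (Function.update x w (x w + 1))) (fun y => ENNReal.ofReal (f y))
      = ENNReal.ofReal (searchQ G x (fun w => f (Function.update x w (x w + 1))) (x u) u) := by
    intro u
    rw [pexp_bind]
    simp only [pexp_pure]
    exact pexp_search G x (fun w => f (Function.update x w (x w + 1))) (fun w => hf _) (x u) u
  simp only [h]
  have hc : 0 < Fintype.card V := Fintype.card_pos
  rw [← ENNReal.ofReal_sum_of_nonneg (fun u _ => by
    exact_mod_cast searchQ_nonneg G x _ (fun w => hf _) _ _)]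
  rw [← ENNReal.ofReal_natCast, ← ENNReal.ofReal_div_of_pos (by exact_mod_cast hc)]
  congr 1
  push_cast
  rfl

theorem pexp_law [Nonempty V] (m : ℕ) (f : (V → ℕ) → ℚ) (hf : ∀ x, 0 ≤ f x) :
    pexp (law G m) (fun y => ENNReal.ofReal (f y)) = ENNReal.ofReal (lawQ G m f) := by
  induction m generalizing f with
  | zero => rw [law, lawQ, pexp_pure]
  | succ m ih =>
    rw [law, lawQ, pexp_bind, ← ih (stepQ G f) (stepQ_nonneg G f hf)]
    congr 1
    funext x
    exact pexp_step G x f hf

/-- indicator of the event that the maximum load is at least `l` -/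
def ind (l : ℕ) (x : V → ℕ) : ℚ := if l ≤ univ.sup x then 1 else 0

theorem probMaxGe_eq [Nonempty V] (m l : ℕ) :
    probMaxGe G m l = ENNReal.ofReal (lawQ G m (ind l)) := by
  unfold probMaxGe
  rw [toOuterMeasure_eq_pexp, ← pexp_law G m (ind l) (fun x => by unfold ind; split_ifs <;> norm_num)]
  congr 1
  funext x
  unfold ind
  by_cases h : l ≤ univ.sup x
  · rw [if_pos (show x ∈ {x : V → ℕ | l ≤ univ.sup x} from h), if_pos h]; simp
  · rw [if_neg (show ¬ x ∈ {x : V → ℕ | l ≤ univ.sup x} from h), if_neg h]; simp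

end rational

/-- `K_{2,3}` with parts `{0,1}` and `{2,3,4}` -/
def G₁ : SimpleGraph (Fin 5) where
  Adj u v := (u.1 < 2 ∧ 2 ≤ v.1) ∨ (v.1 < 2 ∧ 2 ≤ u.1)
  symm := ⟨fun _ _ h => h.symm⟩
  loopless := ⟨fun _ h => by omega⟩

instance : DecidableRel G₁.Adj := fun u v =>
  inferInstanceAs (Decidable ((u.1 < 2 ∧ 2 ≤ v.1) ∨ (v.1 < 2 ∧ 2 ≤ u.1)))

/-- `K_{2,3}` together with the edge `01` -/
def G₂ : SimpleGraph (Fin 5) where
  Adj u v := u ≠ v ∧ (u.1 < 2 ∨ v.1 < 2)
  symm := ⟨fun _ _ h => ⟨h.1.symm, h.2.symm⟩⟩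
  loopless := ⟨fun _ h => h.1 rfl⟩

instance : DecidableRel G₂.Adj := fun u v =>
  inferInstanceAs (Decidable (u ≠ v ∧ (u.1 < 2 ∨ v.1 < 2)))

theorem lawQ₁ : lawQ G₁ 4 (ind 2) = 44 / 625 := by decide +kernel

theorem lawQ₂ : lawQ G₂ 4 (ind 2) = 51 / 625 := by decide +kernel

/-- Adding the edge `01` to `K_{2,3}` strictly increases `Pr[X_max^(4) ≥ 2]`, from `44/625` to
`51/625`.  Hence the maximum load of local search allocation is not stochastically monotone under
adding edges. -/
theorem result :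
    G₁ < G₂ ∧ probMaxGe G₁ 4 2 = 44 / 625 ∧ probMaxGe G₂ 4 2 = 51 / 625 ∧
    probMaxGe G₁ 4 2 < probMaxGe G₂ 4 2 ∧
    ¬ (∀ (V : Type) [Fintype V] [DecidableEq V] [Nonempty V] (G G' : SimpleGraph V)
        [DecidableRel G.Adj] [DecidableRel G'.Adj], G ≤ G' →
        ∀ m l : ℕ, probMaxGe G' m l ≤ probMaxGe G m l) := by
  have h1 : probMaxGe G₁ 4 2 = 44 / 625 := by
    rw [probMaxGe_eq, lawQ₁]
    push_cast
    rw [ENNReal.ofReal_div_of_pos (by norm_num)]
    simp
  have h2 : probMaxGe G₂ 4 2 = 51 / 625 := by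
    rw [probMaxGe_eq, lawQ₂]
    push_cast
    rw [ENNReal.ofReal_div_of_pos (by norm_num)]
    simp
  have h3 : probMaxGe G₁ 4 2 < probMaxGe G₂ 4 2 := by
    rw [probMaxGe_eq, probMaxGe_eq, lawQ₁, lawQ₂]
    rw [ENNReal.ofReal_lt_ofReal_iff (by norm_num)]
    norm_num
  have hle : G₁ ≤ G₂ := by
    intro u v h
    change u ≠ v ∧ (u.1 < 2 ∨ v.1 < 2)
    have h' : (u.1 < 2 ∧ 2 ≤ v.1) ∨ (v.1 < 2 ∧ 2 ≤ u.1) := h
    refine ⟨?_, by omega⟩
    rintro rfl
    omega
  refine ⟨lt_of_le_of_ne hle ?_, h1, h2, h3, ?_⟩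
  · intro h
    have h4 : G₂.Adj 0 1 := ⟨by decide, by decide⟩
    rw [← h] at h4
    have h5 : ((0 : Fin 5).1 < 2 ∧ 2 ≤ (1 : Fin 5).1) ∨ ((1 : Fin 5).1 < 2 ∧ 2 ≤ (0 : Fin 5).1) :=
      h4
    revert h5
    decide
  · intro hall
    exact absurd (hall (Fin 5) G₁ G₂ hle 4 2) (not_le.2 h3)

end Pool.Agent.Results.MP_61ae3e_pr.NotMonotone
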